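import Pool.Agent.Helper15.EP.St

/-!
# Module DAC of the project EP: the additive characters modulo `m` split by their conductor
-/

set_option autoImplicit false

namespace Pool.Agent.Helper26.EP

open Polynomial Pool.Agent.Helper15.FC Pool.Agent.Helper15.EP

theorem ac_exists_min {F : Type} [Field F] (ν : AddChar F[X] ℂ) (m : F[X]) (hm : m.Monic)
    (hν : ν ∈ AC m) :
    ∃ e : F[X], e.Monic ∧ ν ∈ AC e ∧ ∀ r : F[X], r.Monic → ν ∈ AC r → e ∣ r := by
  classical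
  have hex : ∃ n : ℕ, ∃ e : F[X], e.Monic ∧ ν ∈ AC e ∧ e.natDegree = n := ⟨_, m, hm, hν, rfl⟩
  obtain ⟨e, he1, he2, he3⟩ := Nat.find_spec hex
  refine ⟨e, he1, he2, ?_⟩
  intro r hr hνr
  rw [← Polynomial.modByMonic_eq_zero_iff_dvd he1]
  by_contra hne
  have h1 : ∀ g, ν ((r %ₘ e) * g) = 1 := by
    intro g
    have h2 : r = (r %ₘ e) + e * (r /ₘ e) := (modByMonic_add_div r e).symm
    have h3 : ν (r * g) = 1 := hνr g
    have h4 : r * g = (r %ₘ e) * g + e * ((r /ₘ e) * g) := by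
      conv_lhs => rw [h2]
      ring
    have h5 : ν (e * ((r /ₘ e) * g)) = 1 := he2 _
    rw [h4, AddChar.map_add_eq_mul, h5, mul_one] at h3
    exact h3
  have hl : (r %ₘ e).leadingCoeff ≠ 0 := leadingCoeff_ne_zero.mpr hne
  have ht : (C ((r %ₘ e).leadingCoeff⁻¹) * (r %ₘ e)).Monic :=
    monic_C_mul_of_mul_leadingCoeff_eq_one (inv_mul_cancel₀ hl)
  have ht2 : ν ∈ AC (C ((r %ₘ e).leadingCoeff⁻¹) * (r %ₘ e)) := by
    intro g
    have h6 : C ((r %ₘ e).leadingCoeff⁻¹) * (r %ₘ e) * g =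
        (r %ₘ e) * (C ((r %ₘ e).leadingCoeff⁻¹) * g) := by ring
    rw [h6]
    exact h1 _
  have he : e ≠ 1 := by
    intro h
    apply hne
    rw [h, modByMonic_one]
  have hdeg : (C ((r %ₘ e).leadingCoeff⁻¹) * (r %ₘ e)).natDegree < e.natDegree := by
    rw [natDegree_C_mul (inv_ne_zero hl)]
    exact natDegree_modByMonic_lt r he1 he
  rw [he3] at hdeg
  exact Nat.find_min hex hdeg ⟨_, ht, ht2, rfl⟩

theorem ac_mono {F : Type} [Field F] (ν : AddChar F[X] ℂ) {e m : F[X]} (h : e ∣ m)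
    (hν : ν ∈ AC e) : ν ∈ AC m := by
  obtain ⟨c, rfl⟩ := h
  intro g
  rw [mul_assoc]
  exact hν _

theorem hDAC (hACF : StACF) : StDAC := by
  classical
  intro F _ _ m g hm
  obtain ⟨_, hA⟩ := hACF F
  have hPr : ∀ (e : F[X]), e.Monic → ∀ ν, ν ∈ Pr e ↔
      (ν ∈ AC e ∧ ∀ r' : F[X], r'.Monic → r' ∣ e → ν ∈ AC r' → r' = e) := by
    intro e he ν
    unfold Pr
    rw [Finset.mem_filter, (hA e he).2.1 ν]
  have huniq : ∀ (e e' : F[X]), e.Monic → e'.Monic → ∀ ν, ν ∈ Pr e → ν ∈ Pr e' → e = e' := by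
    intro e e' he he' ν h1 h2
    rw [hPr e he] at h1
    rw [hPr e' he'] at h2
    obtain ⟨e0, h3, h4, h5⟩ := ac_exists_min ν e he h1.1
    have h6 := h1.2 e0 h3 (h5 e he h1.1) h4
    have h7 := h2.2 e0 h3 (h5 e' he' h2.1) h4
    rw [← h6, ← h7]
  have hU : ACf m = (Dv m).biUnion (fun e => Pr e) := by
    ext ν
    rw [(hA m hm).2.1 ν, Finset.mem_biUnion]
    constructor
    · intro h
      obtain ⟨e0, h3, h4, h5⟩ := ac_exists_min ν m hm h
      refine ⟨e0, (mem_Dv hm.ne_zero).mpr ⟨h3, h5 m hm h⟩, ?_⟩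
      rw [hPr e0 h3]
      refine ⟨h4, ?_⟩
      intro r' hr' hd hν
      exact eq_of_monic_of_associated hr' h3 (associated_of_dvd_dvd hd (h5 r' hr' hν))
    · rintro ⟨e, he, hν⟩
      rw [mem_Dv hm.ne_zero] at he
      rw [hPr e he.1] at hν
      exact ac_mono ν he.2 hν.1
  rw [hU, Finset.sum_biUnion]
  intro e he e' he' hne
  rw [Function.onFun, Finset.disjoint_left]
  intro ν h1 h2
  apply hne
  have he2 := (mem_Dv hm.ne_zero).mp (Finset.mem_coe.mp he)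
  have he3 := (mem_Dv hm.ne_zero).mp (Finset.mem_coe.mp he')
  exact huniq e e' he2.1 he3.1 ν h1 h2

end Pool.Agent.Helper26.EP
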