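import Pool.Agent.Helper61.EP.StC

/-!
# Project EP (MP_cb927e_an), part C: module CNB (numbers)
-/

set_option autoImplicit false

open MeasureTheory Set Filter Topology
open scoped ENNReal RealInnerProductSpace

namespace Pool.Agent.Helper26.EP

open Pool.Agent.Helper61.EP Pool.Agent.Helper20.RG Pool.Agent.Helper20.RL
open Pool.Agent.Helper68.LM (Pl BB Bd Av HL ft fm DQ)

theorem hCNB : StCNB := by
  intro s δ hs hs2 hδ
  have he : 0 < s - 1 - δ := by linarith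
  refine ⟨⌈31 / (s - 1 - δ)⌉₊, ?_⟩
  intro u η m₁ hu hu1 hN
  obtain ⟨h1, h2, h3, h4⟩ := hN
  have hu' : 31 / (s - 1 - δ) ≤ (u : ℝ) := (Nat.le_ceil _).trans (by exact_mod_cast hu)
  have hbig : (31 : ℝ) ≤ (s - 1 - δ) * u := by
    rw [div_le_iff₀ he] at hu'
    linarith
  have hpow : (2147483648 : ℝ) ≤ (2 : ℝ) ^ ((s - 1 - δ) * (u : ℝ)) := by
    calc (2147483648 : ℝ) = (2 : ℝ) ^ (31 : ℝ) := by
          rw [show (31 : ℝ) = ((31 : ℕ) : ℝ) by norm_num, Real.rpow_natCast]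
          norm_num
      _ ≤ _ := Real.rpow_le_rpow_of_exponent_le (by norm_num) hbig
  have hu0 : (0 : ℝ) ≤ (u : ℝ) := Nat.cast_nonneg u
  -- the numbers
  have hD : D8 s u = 8 * (2 : ℝ) ^ (-(s * u)) := rfl
  have hsplit : (2 : ℝ) ^ (-(δ * (u : ℝ))) =
      (2 : ℝ) ^ ((s - 1 - δ) * (u : ℝ)) * ((2 : ℝ) ^ u * (2 : ℝ) ^ (-(s * (u : ℝ)))) := by
    rw [← Real.rpow_natCast, ← Real.rpow_add (by norm_num), ← Real.rpow_add (by norm_num)]
    congr 1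
    ring
  have hX : 0 < (2 : ℝ) ^ u * (2 : ℝ) ^ (-(s * (u : ℝ))) := by positivity
  have hkey : 2147483648 * ((2 : ℝ) ^ u * (2 : ℝ) ^ (-(s * (u : ℝ)))) ≤ m₁ * η := by
    calc 2147483648 * ((2 : ℝ) ^ u * (2 : ℝ) ^ (-(s * (u : ℝ))))
        ≤ (2 : ℝ) ^ ((s - 1 - δ) * (u : ℝ)) * ((2 : ℝ) ^ u * (2 : ℝ) ^ (-(s * (u : ℝ)))) :=
          mul_le_mul_of_nonneg_right hpow hX.le
      _ = (2 : ℝ) ^ (-(δ * (u : ℝ))) := hsplit.symm
      _ ≤ m₁ * η := h3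
  refine ⟨?_, ?_, ?_⟩
  · -- first
    have h5 : m₁ * η ≤ (2 : ℝ) ^ u * η := mul_le_mul_of_nonneg_right h4 h1.le
    have h6 : (2 : ℝ) ^ u * (2147483648 * (2 : ℝ) ^ (-(s * (u : ℝ)))) ≤ (2 : ℝ) ^ u * η := by
      calc (2 : ℝ) ^ u * (2147483648 * (2 : ℝ) ^ (-(s * (u : ℝ))))
          = 2147483648 * ((2 : ℝ) ^ u * (2 : ℝ) ^ (-(s * (u : ℝ)))) := by ring
        _ ≤ m₁ * η := hkey
        _ ≤ _ := h5
    have h7 : 2147483648 * (2 : ℝ) ^ (-(s * (u : ℝ))) ≤ η :=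
      le_of_mul_le_mul_left h6 (by positivity)
    have h8 : 0 < (2 : ℝ) ^ (-(s * (u : ℝ))) := by positivity
    rw [hD]
    nlinarith
  · -- second
    rw [hD]
    have h9 : (2 : ℝ) ^ (-(6 * (u : ℤ))) = (2 : ℝ) ^ (-(6 * (u : ℝ))) := by
      rw [← Real.rpow_intCast]
      congr 1
      push_cast
      ring
    rw [h9]
    have h10 : (2 : ℝ) ^ (-(6 * (u : ℝ))) ≤ (2 : ℝ) ^ (-(s * (u : ℝ))) := by
      apply Real.rpow_le_rpow_of_exponent_le (by norm_num)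
      nlinarith
    have h8 : 0 < (2 : ℝ) ^ (-(s * (u : ℝ))) := by positivity
    linarith
  · -- third
    rw [hD, mul_div_assoc', div_le_iff₀ h1]
    calc 12800 * (10752 * 2 ^ u * (8 * (2 : ℝ) ^ (-(s * (u : ℝ)))))
        = 1101004800 * ((2 : ℝ) ^ u * (2 : ℝ) ^ (-(s * (u : ℝ)))) := by ring
      _ ≤ 2147483648 * ((2 : ℝ) ^ u * (2 : ℝ) ^ (-(s * (u : ℝ)))) := by
          apply mul_le_mul_of_nonneg_right (by norm_num) hX.le
      _ ≤ m₁ * η := hkey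

end Pool.Agent.Helper26.EP
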