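import Pool.Agent.Helper68.EP.St4

/-!
# Project EP (MP_cb927e_an): module EAP, the a priori bound
-/

set_option autoImplicit false

open MeasureTheory Set Filter Topology
open scoped ENNReal RealInnerProductSpace

namespace Pool.Agent.Helper26.EP

open Pool.Agent.Helper68.EP
open Pool.Agent.Helper68.LM (Pl BB Bd Av HL ft fm DQ)
open Pool.Agent.Helper20.RG
open Pool.Agent.Helper20.RL (RQ Rich BM Fml)

/-- a set of integers of diameter less than `N` has an indicator sum at most `N` -/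
lemma tsum_ind_le (S : Set ℤ) (N : ℕ) (h : ∀ k ∈ S, ∀ k' ∈ S, k' - k < (N : ℤ)) :
    ∑' k : ℤ, S.indicator (fun _ => (1 : ℝ≥0∞)) k ≤ (N : ℝ≥0∞) := by
  classical
  rcases S.eq_empty_or_nonempty with hS | ⟨k0, hk0⟩
  · subst hS; simp
  have hbdd : ∀ k ∈ S, k0 - (N : ℤ) ≤ k := by
    intro k hk
    have := h k hk k0 hk0
    omega
  obtain ⟨m, hmS, hm⟩ := Int.exists_least_of_bdd (P := fun k => k ∈ S) ⟨k0 - (N : ℤ), hbdd⟩ ⟨k0, hk0⟩
  have hsub : S ⊆ (Finset.Ico m (m + (N : ℤ)) : Set ℤ) := by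
    intro k hk
    have h1 := h m hmS k hk
    have h2 := hm k hk
    simp only [Finset.coe_Ico, Set.mem_Ico]
    omega
  have hz : ∀ k ∉ Finset.Ico m (m + (N : ℤ)), S.indicator (fun _ => (1 : ℝ≥0∞)) k = 0 := by
    intro k hk
    apply Set.indicator_of_notMem
    intro hkS
    exact hk (by exact_mod_cast hsub hkS)
  rw [tsum_eq_sum hz]
  calc ∑ k ∈ Finset.Ico m (m + (N : ℤ)), S.indicator (fun _ => (1 : ℝ≥0∞)) k
      ≤ ∑ k ∈ Finset.Ico m (m + (N : ℤ)), (1 : ℝ≥0∞) := by
        apply Finset.sum_le_sum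
        intro k _
        by_cases hk : k ∈ S
        · rw [Set.indicator_of_mem hk]
        · rw [Set.indicator_of_notMem hk]
          exact bot_le
    _ = (N : ℝ≥0∞) := by
        simp

theorem hEAP (hEVF : StEVF) (hEME : StEME) (hETY : StETY) (hEF1 : StEF1) : StEAP := by
  intro P Δ u j θ E hSy hOk hj hE
  have hθ : 0 < θ := hOk.th.1
  obtain ⟨hm1, hm2, -, -, -⟩ := hEME P Δ θ E hE hθ
  have hEm : MeasurableSet E := hE.1
  -- the density is below the threshold
  have hDD : DD P u < θ / 32 := by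
    have h0 : 0 < DD P u := by unfold DD; positivity
    have het : et P u (q0 P u) ≤ 1 := by
      unfold et
      have hle : ((q0 P u : ℕ) : ℤ) - (q1 P u : ℤ) - 4 ≤ 0 := by
        have := hOk.qq.2
        omega
      calc (2 : ℝ) ^ (((q0 P u : ℕ) : ℤ) - (q1 P u : ℤ) - 4) ≤ (2 : ℝ) ^ (0 : ℤ) :=
            zpow_le_zpow_right₀ (by norm_num) hle
        _ = 1 := by norm_num
    have h1 : 1024 * DD P u ≤ θ := by
      calc 1024 * DD P u ≤ et P u (q0 P u) * θ := hOk.den
        _ ≤ 1 * θ := mul_le_mul_of_nonneg_right het hθ.le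
        _ = θ := one_mul _
    linarith
  -- two scales at which a point is typical are close
  have hclose : ∀ z : Pl, ∀ k k' : ℤ, z ∈ Tc P Δ u j k θ E → z ∈ Tc P Δ u j k' θ E →
      k' - k < ((2 ^ q1 P u : ℕ) : ℤ) := by
    intro z k k' hz hz'
    obtain ⟨⟨h1, -, -⟩, -, h3, -, -⟩ := hEF1 P Δ u j k' θ E z hSy hOk hj hE hz'
    have hfl : Δ.fl u j ≤ 2 ^ q1 P u := (hSy.flat u j hOk.u1 hj).2
    have hzF : z ∈ Fb E (DD P u) (k - 2 ^ q0 P u) := hz.1
    have hB : ¬ (k - 2 ^ q0 P u ≤ Bc P Δ u j k' θ E z + 1) := fun hb => h3 _ _ hDD hb hzF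
    have hfl' : (Δ.fl u j : ℤ) ≤ ((2 ^ q1 P u : ℕ) : ℤ) := by exact_mod_cast hfl
    have hp : (0 : ℤ) < 2 ^ q0 P u := by positivity
    omega
  have hV : ∀ k : ℤ, volume (Vc P Δ u j k θ E) ≤
      ENNReal.ofReal (2 / θ) * volume (Tc P Δ u j k θ E) := by
    intro k
    have hsub := (hEVF P Δ u j k θ E hE hθ).2.1
    have := ((hETY P Δ u j k θ E hE hθ).1 _ hsub).2
    refine this.trans ?_
    gcongr
    exact Set.inter_subset_left
  have hTE : ∀ k : ℤ, Tc P Δ u j k θ E ⊆ E := fun k z hz => (hm1 u (q0 P u) k).2.1 hz.1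
  have hTm : ∀ k : ℤ, MeasurableSet (Tc P Δ u j k θ E) := fun k => (hm2 u j k).2
  have hsum : ∑' k : ℤ, volume (Tc P Δ u j k θ E) ≤ ((2 ^ q1 P u : ℕ) : ℝ≥0∞) * volume E := by
    calc ∑' k : ℤ, volume (Tc P Δ u j k θ E)
        = ∑' k : ℤ, ∫⁻ z, (Tc P Δ u j k θ E).indicator (fun _ => (1 : ℝ≥0∞)) z := by
          apply tsum_congr
          intro k
          rw [lintegral_indicator (hTm k), setLIntegral_one]
      _ = ∫⁻ z, ∑' k : ℤ, (Tc P Δ u j k θ E).indicator (fun _ => (1 : ℝ≥0∞)) z := by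
          rw [lintegral_tsum]
          intro k
          exact (measurable_const.indicator (hTm k)).aemeasurable
      _ ≤ ∫⁻ z, E.indicator (fun _ => ((2 ^ q1 P u : ℕ) : ℝ≥0∞)) z := by
          apply lintegral_mono
          intro z
          by_cases hz : z ∈ E
          · rw [Set.indicator_of_mem hz]
            have heq : ∀ k : ℤ, (Tc P Δ u j k θ E).indicator (fun _ => (1 : ℝ≥0∞)) z =
                ({k : ℤ | z ∈ Tc P Δ u j k θ E}).indicator (fun _ => (1 : ℝ≥0∞)) k := by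
              intro k
              by_cases hk : z ∈ Tc P Δ u j k θ E
              · rw [Set.indicator_of_mem hk, Set.indicator_of_mem]
                exact hk
              · rw [Set.indicator_of_notMem hk, Set.indicator_of_notMem]
                exact hk
            simp only [heq]
            exact tsum_ind_le _ _ (fun k hk k' hk' => hclose z k k' hk hk')
          · rw [Set.indicator_of_notMem hz]
            have heq : ∀ k : ℤ, (Tc P Δ u j k θ E).indicator (fun _ => (1 : ℝ≥0∞)) z = 0 :=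
              fun k => Set.indicator_of_notMem (fun h => hz (hTE k h)) _
            simp only [heq, tsum_zero, le_refl]
      _ = ((2 ^ q1 P u : ℕ) : ℝ≥0∞) * volume E := by
          rw [lintegral_indicator hEm, setLIntegral_const]
  calc ∑' k : ℤ, volume (Vc P Δ u j k θ E)
      ≤ ∑' k : ℤ, ENNReal.ofReal (2 / θ) * volume (Tc P Δ u j k θ E) := ENNReal.tsum_le_tsum hV
    _ = ENNReal.ofReal (2 / θ) * ∑' k : ℤ, volume (Tc P Δ u j k θ E) := ENNReal.tsum_mul_left
    _ ≤ ENNReal.ofReal (2 / θ) * (((2 ^ q1 P u : ℕ) : ℝ≥0∞) * volume E) := by gcongr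
    _ = ENNReal.ofReal (2 / θ * 2 ^ q1 P u) * volume E := by
        rw [ENNReal.ofReal_mul (by positivity), ← mul_assoc]
        congr 2
        rw [ENNReal.ofReal_pow (by norm_num)]
        simp

end Pool.Agent.Helper26.EP
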