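import Pool.Agent.Helper61.EP.StL

/-!
# Project EP (MP_cb927e_an), part L: module LX2
-/

set_option autoImplicit false

open MeasureTheory Set Filter Topology
open scoped ENNReal RealInnerProductSpace

namespace Pool.Agent.Helper26.EPL

open Pool.Agent.Helper61.EPL Pool.Agent.Helper20.RG Pool.Agent.Helper68.EP
open Pool.Agent.Helper20.RL (RQ Rich BM Fml Hit)
open Pool.Agent.Helper61.EP (trS Ex2 Yc Zc Ec am cutf)
open Pool.Agent.Helper68.LM (Pl BB Bd Av HL ft fm DQ)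

lemma meas_Ec (hYB : Pool.Agent.Helper20.RG.StYB) (φ τ : ℝ → ℝ) (c : Pl) (hG : Graph φ τ)
    (u : ℕ) (k : ℤ) (g : Pl → ℝ) (hg : BB g) : Measurable (Ec c φ τ u k g) := by
  have hY : ∀ (u j m : ℕ) (ℓ : ℝ), 0 < ℓ → Measurable (Y (τ (tm u j)) (ce c φ u j) m ℓ k g) := by
    intro u j m ℓ hℓ
    exact (hYB (τ (tm u j)) (ce c φ u j) m ℓ k g (hG.1 _) hℓ hg).1.1
  have hSa : ∀ u : ℕ, Measurable (Sa c φ τ u k g) := by
    intro u
    unfold Sa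
    apply Measurable.const_mul
    apply Finset.measurable_sum
    intro j _
    exact hY u j _ _ (by positivity)
  have hZc : Measurable (Zc c φ τ u k g) := by
    unfold Zc
    apply Measurable.const_mul
    apply Finset.measurable_sum
    intro j _
    unfold Z
    exact (hY u j _ _ (by positivity)).sub (hY u j _ _ (by positivity))
  unfold Ec
  exact ((hSa u).sub (hSa (u - 1))).sub hZc

lemma cheb (F : Pl → ℝ) (hF : Measurable F) (t : ℝ) (ht : 0 < t) :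
    volume {x | ENNReal.ofReal t < ‖F x‖ₑ} ≤ (∫⁻ x, ‖F x‖ₑ ^ 2) * ENNReal.ofReal (1 / t ^ 2) := by
  have h1 : {x | ENNReal.ofReal t < ‖F x‖ₑ} ⊆ {x | ENNReal.ofReal (t ^ 2) ≤ ‖F x‖ₑ ^ 2} := by
    intro x hx
    simp only [mem_setOf_eq] at hx ⊢
    rw [ENNReal.ofReal_pow ht.le]
    gcongr
  have h2 : ENNReal.ofReal (t ^ 2) ≠ 0 := by
    have : 0 < t ^ 2 := by positivity
    exact (ENNReal.ofReal_pos.mpr this).ne'
  calc volume {x | ENNReal.ofReal t < ‖F x‖ₑ}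
      ≤ volume {x | ENNReal.ofReal (t ^ 2) ≤ ‖F x‖ₑ ^ 2} := measure_mono h1
    _ ≤ (∫⁻ x, ‖F x‖ₑ ^ 2) / ENNReal.ofReal (t ^ 2) :=
        meas_ge_le_lintegral_div (hF.enorm.pow_const 2).aemeasurable h2 ENNReal.ofReal_ne_top
    _ = (∫⁻ x, ‖F x‖ₑ ^ 2) * ENNReal.ofReal (1 / t ^ 2) := by
        rw [div_eq_mul_inv, one_div, ENNReal.ofReal_inv_of_pos (by positivity)]

theorem hLX2 (hYB : Pool.Agent.Helper20.RG.StYB) (hPER : Pool.Agent.Helper20.RL.StPER)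
    (hLSQ : Pool.Agent.Helper61.EPL.StLSQ) (hLZF : Pool.Agent.Helper61.EPL.StLZF) :
    Pool.Agent.Helper61.EPL.StLX2 := by
  intro φ τ A₁ p c hG hGap hA hp1 hp2
  obtain ⟨CP, hCP, hP⟩ := hPER φ τ A₁ p c hG hGap hA (by linarith)
  obtain ⟨CL, hCL, hL⟩ := hLSQ p hp1 hp2
  -- the ratio `q = 2^(-δ)` and `ρ = 2^(-(p-1)/2)`
  set δ : ℝ := (p - 1) / 4 with hδ
  have hδ0 : 0 < δ := by rw [hδ]; linarith
  set q : ℝ := (2 : ℝ) ^ (-δ) with hq
  have hq0 : 0 < q := by rw [hq]; positivity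
  have hq1 : q < 1 := by
    rw [hq]
    exact Real.rpow_lt_one_of_one_lt_of_neg (by norm_num) (by linarith)
  set ρ : ℝ := (2 : ℝ) ^ (-((p - 1) / 2)) with hρ
  have hρ0 : 0 < ρ := by rw [hρ]; positivity
  have hρ1 : ρ < 1 := by
    rw [hρ]
    exact Real.rpow_lt_one_of_one_lt_of_neg (by norm_num) (by linarith)
  set D : ℝ := 16 / (1 - q) ^ 2 * CP * CL with hD
  have h1q : 0 < 1 - q := by linarith
  have hD0 : 0 < D := by rw [hD]; positivity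
  -- the series of numbers
  have hsum : Summable (fun u : ℕ => D * (((u : ℝ) + 1) ^ 3 * ρ ^ u)) := by
    have h0 : Summable (fun n : ℕ => ((n : ℝ)) ^ 3 * ρ ^ n) :=
      summable_pow_mul_geometric_of_norm_lt_one 3 (by
        rw [Real.norm_eq_abs, abs_of_pos hρ0]; exact hρ1)
    have h1 := (summable_nat_add_iff 1).mpr h0
    have h2 : (fun u : ℕ => D * (((u : ℝ) + 1) ^ 3 * ρ ^ u)) =
        fun u : ℕ => (D * ρ⁻¹) * ((((u + 1 : ℕ) : ℝ)) ^ 3 * ρ ^ (u + 1)) := by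
      funext u
      push_cast
      field_simp
      ring
    rw [h2]
    exact h1.mul_left _
  have hnn : ∀ u : ℕ, 0 ≤ D * (((u : ℝ) + 1) ^ 3 * ρ ^ u) := by
    intro u
    positivity
  set S : ℝ := ∑' u : ℕ, D * (((u : ℝ) + 1) ^ 3 * ρ ^ u) with hS
  refine ⟨max 1 S, le_max_left _ _, ?_⟩
  intro U₀ f hU₀ hf hf0
  have hcut : ∀ (l : ℤ) (u : ℕ), BB (cutf f l u) := fun l u => ((hLZF.2.2.2.2 f hf l).2 u)
  -- the numbers `c_i`
  set cc : ℕ → ℝ := fun i => (1 - q) * q ^ i / 4 with hcc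
  have hcc0 : ∀ i, 0 < cc i := by intro i; simp only [hcc]; positivity
  have hccs : ∀ t : ℝ, 0 < t → ∑' i : ℕ, ENNReal.ofReal (cc i * t) = ENNReal.ofReal (t / 4) := by
    intro t ht
    have hg : Summable (fun i : ℕ => cc i * t) := by
      have h0 : Summable (fun i : ℕ => q ^ i) := summable_geometric_of_lt_one hq0.le hq1
      have h2 : (fun i : ℕ => cc i * t) = fun i : ℕ => ((1 - q) / 4 * t) * q ^ i := by
        funext i
        simp only [hcc]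
        ring
      rw [h2]
      exact h0.mul_left _
    rw [← ENNReal.ofReal_tsum_of_nonneg (fun i => (mul_pos (hcc0 i) ht).le) hg]
    congr 1
    have h2 : (fun i : ℕ => cc i * t) = fun i : ℕ => ((1 - q) / 4 * t) * q ^ i := by
      funext i
      simp only [hcc]
      ring
    rw [h2, tsum_mul_left, tsum_geometric_of_lt_one hq0.le hq1]
    field_simp
  -- Chebyshev for one level `l`
  have hA' : ∀ l : ℤ, volume {x | ∃ k : ℤ, ENNReal.ofReal ((2 : ℝ) ^ l / 4) <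
      ∑' i : ℕ, ‖Ec c φ τ (U₀ + i + 1) k (cutf f l (U₀ + i + 1)) x‖ₑ} ≤
      ∑' i : ℕ, ∑' k : ℤ, (∫⁻ x, ‖Ec c φ τ (U₀ + i + 1) k (cutf f l (U₀ + i + 1)) x‖ₑ ^ 2) *
        ENNReal.ofReal (1 / (cc i * (2 : ℝ) ^ l) ^ 2) := by
    intro l
    have hsub : {x | ∃ k : ℤ, ENNReal.ofReal ((2 : ℝ) ^ l / 4) <
        ∑' i : ℕ, ‖Ec c φ τ (U₀ + i + 1) k (cutf f l (U₀ + i + 1)) x‖ₑ} ⊆
        ⋃ i : ℕ, ⋃ k : ℤ, {x | ENNReal.ofReal (cc i * (2 : ℝ) ^ l) <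
          ‖Ec c φ τ (U₀ + i + 1) k (cutf f l (U₀ + i + 1)) x‖ₑ} := by
      intro x hx
      obtain ⟨k, hk⟩ := hx
      by_contra hcon
      simp only [mem_iUnion, mem_setOf_eq, not_exists, not_lt] at hcon
      have h1 : ∑' i : ℕ, ‖Ec c φ τ (U₀ + i + 1) k (cutf f l (U₀ + i + 1)) x‖ₑ ≤
          ∑' i : ℕ, ENNReal.ofReal (cc i * (2 : ℝ) ^ l) :=
        ENNReal.tsum_le_tsum (fun i => hcon i k)
      rw [hccs _ (by positivity)] at h1
      exact absurd hk (not_lt.mpr h1)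
    refine (measure_mono hsub).trans ((measure_iUnion_le _).trans ?_)
    apply ENNReal.tsum_le_tsum
    intro i
    refine (measure_iUnion_le _).trans ?_
    apply ENNReal.tsum_le_tsum
    intro k
    exact cheb _ (meas_Ec hYB φ τ c hG _ _ _ (hcut _ _)) _ (mul_pos (hcc0 i) (by positivity))
  -- one class
  have hB : ∀ i : ℕ, ∑' l : ℤ, ENNReal.ofReal ((2 : ℝ) ^ (p * l)) *
      ∑' k : ℤ, (∫⁻ x, ‖Ec c φ τ (U₀ + i + 1) k (cutf f l (U₀ + i + 1)) x‖ₑ ^ 2) *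
        ENNReal.ofReal (1 / (cc i * (2 : ℝ) ^ l) ^ 2) ≤
      ENNReal.ofReal (D * ((((U₀ + i + 1 : ℕ) : ℝ) + 1) ^ 3 * ρ ^ (U₀ + i + 1))) *
        ∫⁻ x, ENNReal.ofReal (f x) ^ p := by
    intro i
    set u : ℕ := U₀ + i + 1 with hu
    have hu2 : 2 ≤ u := by omega
    have hterm : ∀ l : ℤ, ENNReal.ofReal ((2 : ℝ) ^ (p * l)) *
        ∑' k : ℤ, (∫⁻ x, ‖Ec c φ τ u k (cutf f l u) x‖ₑ ^ 2) *
          ENNReal.ofReal (1 / (cc i * (2 : ℝ) ^ l) ^ 2) ≤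
        ENNReal.ofReal (1 / cc i ^ 2 * (CP * (2 : ℝ) ^ (-(u : ℝ)) * ((u : ℝ) + 1) ^ 3)) *
          (ENNReal.ofReal ((2 : ℝ) ^ ((p - 2) * l)) * ∫⁻ x, ‖cutf f l u x‖ₑ ^ 2) := by
      intro l
      have h1 : ∑' k : ℤ, ∫⁻ x, ‖Ec c φ τ u k (cutf f l u) x‖ₑ ^ 2 ≤
          ENNReal.ofReal (CP * (2 : ℝ) ^ (-(u : ℝ)) * ((u : ℝ) + 1) ^ 3) *
            ∫⁻ x, ‖cutf f l u x‖ₑ ^ 2 := by
        have := hP u 0 hu2 (cutf f l u) (hcut l u)
        refine le_trans (le_of_eq ?_) (this.trans (le_of_eq ?_))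
        · rfl
        · congr 2
          push_cast
          ring
      have h2 : ENNReal.ofReal ((2 : ℝ) ^ (p * l)) * ENNReal.ofReal (1 / (cc i * (2 : ℝ) ^ l) ^ 2) =
          ENNReal.ofReal (1 / cc i ^ 2) * ENNReal.ofReal ((2 : ℝ) ^ ((p - 2) * l)) := by
        rw [← ENNReal.ofReal_mul (by positivity), ← ENNReal.ofReal_mul (by positivity)]
        congr 1
        have h3 : (2 : ℝ) ^ ((p - 2) * l) = (2 : ℝ) ^ (p * l) * (((2 : ℝ) ^ l) ^ 2)⁻¹ := by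
          rw [← Real.rpow_intCast, ← Real.rpow_natCast, ← Real.rpow_mul (by norm_num),
            ← Real.rpow_neg (by norm_num), ← Real.rpow_add (by norm_num)]
          congr 1
          push_cast
          ring
        rw [h3, mul_pow]
        field_simp
      rw [ENNReal.tsum_mul_right]
      calc ENNReal.ofReal ((2 : ℝ) ^ (p * l)) *
            ((∑' k : ℤ, ∫⁻ x, ‖Ec c φ τ u k (cutf f l u) x‖ₑ ^ 2) *
              ENNReal.ofReal (1 / (cc i * (2 : ℝ) ^ l) ^ 2))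
          = (ENNReal.ofReal ((2 : ℝ) ^ (p * l)) * ENNReal.ofReal (1 / (cc i * (2 : ℝ) ^ l) ^ 2)) *
            ∑' k : ℤ, ∫⁻ x, ‖Ec c φ τ u k (cutf f l u) x‖ₑ ^ 2 := by ring
        _ ≤ (ENNReal.ofReal (1 / cc i ^ 2) * ENNReal.ofReal ((2 : ℝ) ^ ((p - 2) * l))) *
            (ENNReal.ofReal (CP * (2 : ℝ) ^ (-(u : ℝ)) * ((u : ℝ) + 1) ^ 3) *
            ∫⁻ x, ‖cutf f l u x‖ₑ ^ 2) := by rw [h2]; gcongr
        _ = ENNReal.ofReal (1 / cc i ^ 2 * (CP * (2 : ℝ) ^ (-(u : ℝ)) * ((u : ℝ) + 1) ^ 3)) *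
          (ENNReal.ofReal ((2 : ℝ) ^ ((p - 2) * l)) * ∫⁻ x, ‖cutf f l u x‖ₑ ^ 2) := by
            have hci := hcc0 i
            rw [ENNReal.ofReal_mul (p := 1 / cc i ^ 2) (by positivity)]
            ring
    refine (ENNReal.tsum_le_tsum hterm).trans ?_
    rw [ENNReal.tsum_mul_left]
    have h4 := (hL f hf.1 hf0).2.1 u
    refine (mul_le_mul_right h4 _).trans ?_
    rw [← mul_assoc]
    gcongr ?_ * _
    have hci := hcc0 i
    rw [← ENNReal.ofReal_mul (by positivity)]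
    apply ENNReal.ofReal_le_ofReal
    -- the numbers
    have hqi : q ^ u ≤ q ^ i := pow_le_pow_of_le_one hq0.le hq1.le (by omega)
    have h5 : 1 / cc i ^ 2 ≤ 16 / (1 - q) ^ 2 * ((q ^ u) ^ 2)⁻¹ := by
      have h6 : 1 / cc i ^ 2 = 16 / (1 - q) ^ 2 * ((q ^ i) ^ 2)⁻¹ := by
        have hqi0 : q ^ i ≠ 0 := (pow_pos hq0 i).ne'
        have h1q' : 1 - q ≠ 0 := h1q.ne'
        simp only [hcc]
        rw [div_pow, mul_pow, one_div_div, div_mul_eq_div_div, div_eq_mul_inv _ ((q ^ i) ^ 2)]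
        norm_num
      rw [h6]
      gcongr
    have h7 : ρ ^ u = (2 : ℝ) ^ (-(u : ℝ)) * (2 : ℝ) ^ ((2 - p) * u) * ((q ^ u) ^ 2)⁻¹ := by
      rw [hρ, hq, ← Real.rpow_natCast, ← Real.rpow_natCast, ← Real.rpow_natCast,
        ← Real.rpow_mul (by positivity), ← Real.rpow_mul (by positivity),
        ← Real.rpow_mul (by positivity), ← Real.rpow_neg (by positivity),
        ← Real.rpow_add (by norm_num), ← Real.rpow_add (by norm_num)]
      congr 1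
      rw [hδ]
      push_cast
      ring
    calc 1 / cc i ^ 2 * (CP * (2 : ℝ) ^ (-(u : ℝ)) * ((u : ℝ) + 1) ^ 3) *
          (CL * (2 : ℝ) ^ ((2 - p) * u))
        ≤ (16 / (1 - q) ^ 2 * ((q ^ u) ^ 2)⁻¹) * (CP * (2 : ℝ) ^ (-(u : ℝ)) * ((u : ℝ) + 1) ^ 3) *
          (CL * (2 : ℝ) ^ ((2 - p) * u)) := by gcongr
      _ = D * (((u : ℝ) + 1) ^ 3 * ρ ^ u) := by
          rw [h7, hD]
          ring
  -- conclusion
  calc ∑' l : ℤ, ENNReal.ofReal ((2 : ℝ) ^ (p * l)) * volume {x | ∃ k : ℤ,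
        ENNReal.ofReal ((2 : ℝ) ^ l / 4) <
          ∑' i : ℕ, ‖Ec c φ τ (U₀ + i + 1) k (cutf f l (U₀ + i + 1)) x‖ₑ}
      ≤ ∑' l : ℤ, ENNReal.ofReal ((2 : ℝ) ^ (p * l)) *
        ∑' i : ℕ, ∑' k : ℤ, (∫⁻ x, ‖Ec c φ τ (U₀ + i + 1) k (cutf f l (U₀ + i + 1)) x‖ₑ ^ 2) *
        ENNReal.ofReal (1 / (cc i * (2 : ℝ) ^ l) ^ 2) := by
        apply ENNReal.tsum_le_tsum
        intro l
        gcongr
        exact hA' l
    _ = ∑' i : ℕ, ∑' l : ℤ, ENNReal.ofReal ((2 : ℝ) ^ (p * l)) *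
        ∑' k : ℤ, (∫⁻ x, ‖Ec c φ τ (U₀ + i + 1) k (cutf f l (U₀ + i + 1)) x‖ₑ ^ 2) *
        ENNReal.ofReal (1 / (cc i * (2 : ℝ) ^ l) ^ 2) := by
        rw [← ENNReal.tsum_comm]
        apply tsum_congr
        intro l
        rw [ENNReal.tsum_mul_left]
    _ ≤ ∑' i : ℕ, ENNReal.ofReal (D * ((((U₀ + i + 1 : ℕ) : ℝ) + 1) ^ 3 * ρ ^ (U₀ + i + 1))) *
        ∫⁻ x, ENNReal.ofReal (f x) ^ p := ENNReal.tsum_le_tsum hB
    _ = (∑' i : ℕ, ENNReal.ofReal (D * ((((U₀ + i + 1 : ℕ) : ℝ) + 1) ^ 3 * ρ ^ (U₀ + i + 1)))) *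
        ∫⁻ x, ENNReal.ofReal (f x) ^ p := ENNReal.tsum_mul_right
    _ ≤ (∑' u : ℕ, ENNReal.ofReal (D * (((u : ℝ) + 1) ^ 3 * ρ ^ u))) *
        ∫⁻ x, ENNReal.ofReal (f x) ^ p := by
        gcongr ?_ * _
        exact ENNReal.tsum_comp_le_tsum_of_injective
          (f := fun i : ℕ => U₀ + i + 1) (fun a b hab => by simpa using hab)
          (fun u : ℕ => ENNReal.ofReal (D * (((u : ℝ) + 1) ^ 3 * ρ ^ u)))
    _ = ENNReal.ofReal S * ∫⁻ x, ENNReal.ofReal (f x) ^ p := by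
        rw [hS, ENNReal.ofReal_tsum_of_nonneg hnn hsum]
    _ ≤ ENNReal.ofReal (max 1 S) * ∫⁻ x, ENNReal.ofReal (f x) ^ p := by
        gcongr
        exact le_max_right _ _

end Pool.Agent.Helper26.EPL
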